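import Mathlib

/-!
# Few traces: a matching with small crossing numbers

`S : Fin m → Finset (Fin n)` has *few traces* (parameter `g`) if for every nonempty set `J` of
indices the points of `Fin n` have at most `g * |J|` different traces on the sets `S j`, `j ∈ J`.

If in addition the maximum degree is at most `t`, there is an involution `σ` of the points with at
most one fixed point such that every set `S j` separates at most `g * t` points from their partners.
-/

set_option autoImplicit false

namespace Pool.Agent.U671.FT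

open Finset

variable {m n : ℕ}

/-- The trace of the point `x` on the sets with indices in `J`: the set of all `j ∈ J` with
`x ∈ S j`. -/
def trace (S : Fin m → Finset (Fin n)) (J : Finset (Fin m)) (x : Fin n) : Finset (Fin m) :=
  J.filter (fun j => x ∈ S j)

/-- For every nonempty `J` the points have at most `g * |J|` different traces on `J`. -/
def FewTraces (S : Fin m → Finset (Fin n)) (g : ℕ) : Prop :=
  ∀ J : Finset (Fin m), J.Nonempty → (univ.image (trace S J)).card ≤ g * J.card

theorem mem_iff_of_trace_eq {S : Fin m → Finset (Fin n)} {J : Finset (Fin m)} {x y : Fin n}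
    (h : trace S J x = trace S J y) {j : Fin m} (hj : j ∈ J) : x ∈ S j ↔ y ∈ S j := by
  have h1 : j ∈ trace S J x ↔ j ∈ trace S J y := by rw [h]
  simpa [trace, hj] using h1

theorem double_count (S : Fin m → Finset (Fin n)) (t : ℕ)
    (hdeg : ∀ x : Fin n, (univ.filter (fun j : Fin m => x ∈ S j)).card ≤ t)
    (X : Finset (Fin n)) (J : Finset (Fin m)) :
    ∑ j ∈ J, (S j ∩ X).card ≤ t * X.card := by
  have h1 : ∀ j, (S j ∩ X).card = ∑ x ∈ X, if x ∈ S j then 1 else 0 := by
    intro j
    rw [← Finset.card_filter]
    congr 1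
    ext x
    simp [and_comm]
  calc ∑ j ∈ J, (S j ∩ X).card = ∑ j ∈ J, ∑ x ∈ X, (if x ∈ S j then 1 else 0) :=
        Finset.sum_congr rfl fun j _ => h1 j
    _ = ∑ x ∈ X, ∑ j ∈ J, (if x ∈ S j then 1 else 0) := Finset.sum_comm
    _ ≤ ∑ _x ∈ X, t := by
        refine Finset.sum_le_sum fun x _ => ?_
        rw [← Finset.card_filter]
        exact (Finset.card_le_card (Finset.filter_subset_filter _ (Finset.subset_univ J))).trans
          (hdeg x)
    _ = t * X.card := by rw [Finset.sum_const, smul_eq_mul, mul_comm]

/-- Two points of `X` which are not separated by any set with more than `g * t` points in `X`. -/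
theorem exists_pair (S : Fin m → Finset (Fin n)) (t g : ℕ)
    (hdeg : ∀ x : Fin n, (univ.filter (fun j : Fin m => x ∈ S j)).card ≤ t)
    (hS : FewTraces S g) (X : Finset (Fin n)) (hX : 2 ≤ X.card) :
    ∃ x ∈ X, ∃ y ∈ X, x ≠ y ∧ ∀ j, g * t < (S j ∩ X).card → (x ∈ S j ↔ y ∈ S j) := by
  classical
  set J : Finset (Fin m) := univ.filter (fun j => g * t < (S j ∩ X).card) with hJ
  have hmem : ∀ j, j ∈ J ↔ g * t < (S j ∩ X).card := by intro j; simp [hJ]
  have hcard : (X.image (trace S J)).card < X.card := by
    by_cases hne : J.Nonempty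
    · have h1 : (X.image (trace S J)).card ≤ g * J.card :=
        (Finset.card_le_card (Finset.image_subset_image (Finset.subset_univ X))).trans (hS J hne)
      have h2 := double_count S t hdeg X J
      have h3 : ∑ _j ∈ J, g * t < ∑ j ∈ J, (S j ∩ X).card :=
        Finset.sum_lt_sum_of_nonempty hne fun j hj => (hmem j).1 hj
      rw [Finset.sum_const, smul_eq_mul] at h3
      have h4 : t * (g * J.card) < t * X.card := by
        calc t * (g * J.card) = J.card * (g * t) := by ring
          _ < _ := lt_of_lt_of_le h3 h2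
      exact lt_of_le_of_lt h1 (lt_of_mul_lt_mul_left h4 (Nat.zero_le t))
    · rw [Finset.not_nonempty_iff_eq_empty] at hne
      have h1 : (X.image (trace S J)).card ≤ 1 := by
        rw [Finset.card_le_one]
        intro a ha b hb
        rw [Finset.mem_image] at ha hb
        obtain ⟨x, _, rfl⟩ := ha
        obtain ⟨y, _, rfl⟩ := hb
        rw [hne]
        simp [trace]
      omega
  obtain ⟨x, hx, y, hy, hxy, h⟩ :=
    Finset.exists_ne_map_eq_of_card_lt_of_maps_to hcard
      (fun a ha => Finset.mem_image_of_mem (trace S J) ha)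
  exact ⟨x, hx, y, hy, hxy, fun j hj => mem_iff_of_trace_eq h ((hmem j).2 hj)⟩

/-- The matching. -/
theorem matching_aux (S : Fin m → Finset (Fin n)) (t g : ℕ)
    (hdeg : ∀ x : Fin n, (univ.filter (fun j : Fin m => x ∈ S j)).card ≤ t)
    (hS : FewTraces S g) :
    ∀ (k : ℕ) (X : Finset (Fin n)), X.card = k →
      ∃ σ : Fin n → Fin n, (∀ x, σ (σ x) = x) ∧ (∀ x, x ∉ X → σ x = x) ∧
        (X.filter (fun x => σ x = x)).card ≤ 1 ∧
        ∀ j, (X.filter (fun x => x ∈ S j ∧ σ x ∉ S j)).card ≤ g * t := by
  classical
  intro k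
  induction k using Nat.strong_induction_on with
  | _ k ih =>
    intro X hXk
    by_cases hX : X.card ≤ 1
    · refine ⟨id, fun x => rfl, fun x _ => rfl, (Finset.card_filter_le _ _).trans hX,
        fun j => ?_⟩
      have h1 : X.filter (fun x => x ∈ S j ∧ id x ∉ S j) = ∅ := by
        rw [Finset.filter_eq_empty_iff]
        rintro x _ ⟨h1, h2⟩
        exact h2 h1
      rw [h1]
      simp
    · obtain ⟨a, ha, b, hb, hab, hJ⟩ := exists_pair S t g hdeg hS X (by omega)
      set Y : Finset (Fin n) := (X.erase a).erase b with hY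
      have hYc : Y.card < k := by
        have h1 : Y.card ≤ (X.erase a).card := Finset.card_le_card (Finset.erase_subset _ _)
        have h2 := Finset.card_erase_lt_of_mem ha
        omega
      obtain ⟨σ, h1, h2, h3, h4⟩ := ih Y.card hYc Y rfl
      have hYmem : ∀ x, x ∈ Y ↔ x ≠ b ∧ x ≠ a ∧ x ∈ X := by
        intro x; simp [hY]
      have hσa : σ a = a := h2 a (fun h => ((hYmem a).1 h).2.1 rfl)
      have hσb : σ b = b := h2 b (fun h => ((hYmem b).1 h).1 rfl)
      have hna : ∀ x, x ≠ a → σ x ≠ a := fun x hx h => hx (by rw [← h1 x, h, hσa])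
      have hnb : ∀ x, x ≠ b → σ x ≠ b := fun x hx h => hx (by rw [← h1 x, h, hσb])
      set τ : Fin n → Fin n := fun x => if x = a then b else if x = b then a else σ x with hτ
      have hτa : τ a = b := by simp [hτ]
      have hτb : τ b = a := by simp [hτ, hab.symm]
      have hτo : ∀ x, x ≠ a → x ≠ b → τ x = σ x := by
        intro x hx hx'; simp [hτ, hx, hx']
      have hXmem : ∀ x, x ∈ X ↔ x = a ∨ x = b ∨ x ∈ Y := by
        intro x
        rw [hYmem]
        by_cases hxa : x = a
        · simp [hxa, ha]
        · by_cases hxb : x = b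
          · simp [hxb, hb]
          · simp [hxa, hxb]
      refine ⟨τ, fun x => ?_, fun x hx => ?_, ?_, fun j => ?_⟩
      · by_cases hxa : x = a
        · rw [hxa, hτa, hτb]
        · by_cases hxb : x = b
          · rw [hxb, hτb, hτa]
          · rw [hτo x hxa hxb, hτo _ (hna x hxa) (hnb x hxb), h1]
      · rw [hXmem] at hx
        push Not at hx
        rw [hτo x hx.1 hx.2.1, h2 x hx.2.2]
      · refine (Finset.card_le_card ?_).trans h3
        intro x hx
        rw [Finset.mem_filter] at hx ⊢
        have hxa : x ≠ a := by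
          rintro rfl
          rw [hτa] at hx
          exact hab hx.2.symm
        have hxb : x ≠ b := by
          rintro rfl
          rw [hτb] at hx
          exact hab hx.2
        rw [hτo x hxa hxb] at hx
        exact ⟨(hYmem x).2 ⟨hxb, hxa, hx.1⟩, hx.2⟩
      · by_cases hj : g * t < (S j ∩ X).card
        · have hab' := hJ j hj
          refine (Finset.card_le_card ?_).trans (h4 j)
          intro x hx
          rw [Finset.mem_filter] at hx ⊢
          have hxa : x ≠ a := by
            rintro rfl
            rw [hτa] at hx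
            exact hx.2.2 (hab'.1 hx.2.1)
          have hxb : x ≠ b := by
            rintro rfl
            rw [hτb] at hx
            exact hx.2.2 (hab'.2 hx.2.1)
          rw [hτo x hxa hxb] at hx
          exact ⟨(hYmem x).2 ⟨hxb, hxa, hx.1⟩, hx.2⟩
        · refine (Finset.card_le_card ?_).trans (not_lt.1 hj)
          intro x hx
          rw [Finset.mem_filter] at hx
          exact Finset.mem_inter.2 ⟨hx.2.1, hx.1⟩

theorem matching (S : Fin m → Finset (Fin n)) (t g : ℕ)
    (hdeg : ∀ x : Fin n, (univ.filter (fun j : Fin m => x ∈ S j)).card ≤ t)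
    (hS : FewTraces S g) :
    ∃ σ : Fin n → Fin n, (∀ x, σ (σ x) = x) ∧
        (univ.filter (fun x => σ x = x)).card ≤ 1 ∧
        ∀ j, ((S j).filter (fun x => σ x ∉ S j)).card ≤ g * t := by
  obtain ⟨σ, h1, _, h3, h4⟩ := matching_aux S t g hdeg hS _ univ rfl
  refine ⟨σ, h1, h3, fun j => ?_⟩
  have h5 : (S j).filter (fun x => σ x ∉ S j) =
      univ.filter (fun x => x ∈ S j ∧ σ x ∉ S j) := by
    ext x; simp
  rw [h5]
  exact h4 j

end Pool.Agent.U671.FT
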