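import Mathlib
import Pool.Agent.U671.FT.Match

/-!
# Few traces: reduction to small sets
-/

set_option autoImplicit false

namespace Pool.Agent.U671.FT

open Finset

variable {m n : ℕ}

/-- The first point of a pair is in the set, the second is not. -/
def plus (S : Fin m → Finset (Fin n)) (σ : Fin n → Fin n) (j : Fin m) : Finset (Fin n) :=
  univ.filter (fun x => x < σ x ∧ x ∈ S j ∧ σ x ∉ S j)

/-- The second point of a pair is in the set, the first is not. -/
def minus (S : Fin m → Finset (Fin n)) (σ : Fin n → Fin n) (j : Fin m) : Finset (Fin n) :=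
  univ.filter (fun x => x < σ x ∧ x ∉ S j ∧ σ x ∈ S j)

/-- The colouring of the points made of a colouring of the first points of the pairs. -/
def col (σ : Fin n → Fin n) (z : Fin n → ℤ) (x : Fin n) : ℤ :=
  if x < σ x then z x else if σ x < x then - z (σ x) else 1

theorem col_pm (σ : Fin n → Fin n) (z : Fin n → ℤ) (hz : ∀ x, z x = 1 ∨ z x = -1) (x : Fin n) :
    col σ z x = 1 ∨ col σ z x = -1 := by
  unfold col
  split_ifs
  · exact hz x
  · rcases hz (σ x) with h | h <;> rw [h] <;> simp
  · left; rfl

theorem col_sum (S : Fin m → Finset (Fin n)) (σ : Fin n → Fin n) (hσ : ∀ x, σ (σ x) = x)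
    (z : Fin n → ℤ) (j : Fin m) :
    ∑ x ∈ S j, col σ z x = ∑ x ∈ plus S σ j, z x - ∑ x ∈ minus S σ j, z x +
      ((S j).filter (fun x => σ x = x)).card := by
  classical
  have key : ∀ x, (if x ∈ S j then col σ z x else 0) =
      (if x < σ x then (if x ∈ S j then z x else 0) else 0) +
      (if σ x < x then (if x ∈ S j then - z (σ x) else 0) else 0) +
      (if σ x = x then (if x ∈ S j then 1 else 0) else 0) := by
    intro x
    unfold col
    rcases lt_trichotomy x (σ x) with h | h | h
    · have h1 : ¬ σ x < x := not_lt.2 h.le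
      have h2 : ¬ σ x = x := h.ne'
      simp [h, h1, h2]
    · have h0 : σ x = x := h.symm
      simp [h0]
    · have h1 : ¬ x < σ x := not_lt.2 h.le
      have h2 : ¬ σ x = x := h.ne
      simp [h, h1, h2]
  have e0 : ∑ x ∈ S j, col σ z x = ∑ x, (if x ∈ S j then col σ z x else 0) := by
    rw [← Finset.sum_filter]
    exact Finset.sum_congr (by ext; simp) fun _ _ => rfl
  have e2 : ∑ x, (if σ x < x then (if x ∈ S j then - z (σ x) else 0) else 0) =
      ∑ x, (if x < σ x then (if σ x ∈ S j then - z x else 0) else 0) := by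
    refine Finset.sum_nbij' σ σ ?_ ?_ ?_ ?_ ?_
    · intro x _; exact Finset.mem_univ _
    · intro x _; exact Finset.mem_univ _
    · intro x _; exact hσ x
    · intro x _; exact hσ x
    · intro x _
      rw [hσ x]
  have e3 : ∑ x, (if σ x = x then (if x ∈ S j then (1 : ℤ) else 0) else 0) =
      ((S j).filter (fun x => σ x = x)).card := by
    have h1 : (S j).filter (fun x => σ x = x) = univ.filter (fun x => σ x = x ∧ x ∈ S j) := by
      ext x; simp [and_comm]
    rw [h1, Finset.card_filter]
    push_cast
    refine Finset.sum_congr rfl fun x _ => ?_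
    by_cases h2 : σ x = x <;> by_cases h3 : x ∈ S j <;> simp [h2, h3]
  have e4 : ∑ x ∈ plus S σ j, z x - ∑ x ∈ minus S σ j, z x =
      ∑ x, (if x < σ x then (if x ∈ S j then z x else 0) else 0) +
      ∑ x, (if x < σ x then (if σ x ∈ S j then - z x else 0) else 0) := by
    unfold plus minus
    rw [Finset.sum_filter, Finset.sum_filter, ← Finset.sum_sub_distrib, ← Finset.sum_add_distrib]
    refine Finset.sum_congr rfl fun x _ => ?_
    by_cases h1 : x < σ x <;> by_cases h2 : x ∈ S j <;> by_cases h3 : σ x ∈ S j <;>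
      simp [h1, h2, h3]
  rw [e0, Finset.sum_congr rfl fun x _ => key x, Finset.sum_add_distrib, Finset.sum_add_distrib,
    e2, e3, e4]

theorem reduce (S : Fin m → Finset (Fin n)) (t g : ℕ)
    (hdeg : ∀ x : Fin n, (univ.filter (fun j : Fin m => x ∈ S j)).card ≤ t)
    (hS : FewTraces S g) :
    ∃ T : Fin (m + m) → Finset (Fin n),
      (∀ x : Fin n, (univ.filter (fun k => x ∈ T k)).card ≤ 2 * t) ∧
      (∀ k, (T k).card ≤ g * t) ∧
      ∀ z : Fin n → ℤ, (∀ x, z x = 1 ∨ z x = -1) → ∀ B : ℝ,
        (∀ k, ((|∑ x ∈ T k, z x| : ℤ) : ℝ) ≤ B) →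
        ∃ χ : Fin n → ℤ, (∀ x, χ x = 1 ∨ χ x = -1) ∧
          ∀ j, ((|∑ x ∈ S j, χ x| : ℤ) : ℝ) ≤ 2 * B + 1 := by
  classical
  obtain ⟨σ, h1, h2, h3⟩ := matching S t g hdeg hS
  have hinj : Function.Injective σ := fun x y h => by rw [← h1 x, ← h1 y, h]
  refine ⟨Fin.append (plus S σ) (minus S σ), fun x => ?_, fun k => ?_, fun z hz B hB => ?_⟩
  · rw [Finset.card_filter, Fin.sum_univ_add]
    simp only [Fin.append_left, Fin.append_right]
    rw [← Finset.card_filter, ← Finset.card_filter]
    have h4 : (univ.filter (fun j => x ∈ plus S σ j)).card ≤ t :=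
      (Finset.card_le_card (fun j hj => by
        simp only [Finset.mem_filter, Finset.mem_univ, true_and, plus] at hj ⊢
        exact hj.2.1)).trans (hdeg x)
    have h5 : (univ.filter (fun j => x ∈ minus S σ j)).card ≤ t :=
      (Finset.card_le_card (fun j hj => by
        simp only [Finset.mem_filter, Finset.mem_univ, true_and, minus] at hj ⊢
        exact hj.2.2)).trans (hdeg (σ x))
    omega
  · have hp : ∀ j, (plus S σ j).card ≤ g * t := fun j =>
      (Finset.card_le_card (fun x hx => by
        simp only [Finset.mem_filter, Finset.mem_univ, true_and, plus] at hx ⊢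
        exact hx.2)).trans (h3 j)
    have hm : ∀ j, (minus S σ j).card ≤ g * t := fun j => by
      rw [← Finset.card_image_of_injective (minus S σ j) hinj]
      refine (Finset.card_le_card (fun y hy => ?_)).trans (h3 j)
      rw [Finset.mem_image] at hy
      obtain ⟨x, hx, rfl⟩ := hy
      simp only [Finset.mem_filter, Finset.mem_univ, true_and, minus] at hx ⊢
      rw [h1 x]
      exact ⟨hx.2.2, hx.2.1⟩
    refine Fin.addCases (fun j => ?_) (fun j => ?_) k
    · rw [Fin.append_left]; exact hp j
    · rw [Fin.append_right]; exact hm j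
  · refine ⟨col σ z, col_pm σ z hz, fun j => ?_⟩
    have h4 := hB (Fin.castAdd m j)
    have h5 := hB (Fin.natAdd m j)
    rw [Fin.append_left] at h4
    rw [Fin.append_right] at h5
    have h6 : ((S j).filter (fun x => σ x = x)).card ≤ 1 :=
      (Finset.card_le_card (fun x hx => by
        simp only [Finset.mem_filter, Finset.mem_univ, true_and] at hx ⊢
        exact hx.2)).trans h2
    have h6' : (((S j).filter (fun x => σ x = x)).card : ℝ) ≤ 1 := by exact_mod_cast h6
    have h7 : (0 : ℝ) ≤ (((S j).filter (fun x => σ x = x)).card : ℝ) := Nat.cast_nonneg _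
    rw [col_sum S σ h1 z j]
    push_cast at h4 h5 ⊢
    rw [abs_le] at h4 h5 ⊢
    constructor
    · linarith [h4.1, h5.2]
    · linarith [h4.2, h5.1]

end Pool.Agent.U671.FT
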