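import Mathlib
import Pool.Agent.U671.FT.Reduce
import Pool.Agent.H294R2.BF.L1
import Pool.Agent.R959.LD3.Final3
import Pool.Agent.Results.MP_e8ee11_co.LongSets
import Pool.Agent.Results.MP_e8ee11_co.BeckFialaIterFree

/-!
# Few traces: the two discrepancy bounds
-/

set_option autoImplicit false

namespace Pool.Agent.U671.FT

open Finset

variable {m n : ℕ}

theorem one_le_g (S : Fin m → Finset (Fin n)) (g : ℕ) (hS : FewTraces S g) (j : Fin m)
    (x : Fin n) : 1 ≤ g := by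
  have h1 := hS {j} (Finset.singleton_nonempty j)
  have h2 : 0 < (univ.image (trace S {j})).card :=
    Finset.card_pos.2 ⟨_, Finset.mem_image_of_mem _ (Finset.mem_univ x)⟩
  rw [Finset.card_singleton, mul_one] at h1
  omega

theorem main1 : ∃ C : ℝ, 0 < C ∧ ∀ (n m t g : ℕ) (S : Fin m → Finset (Fin n)), 1 ≤ t →
    (∀ x : Fin n, (univ.filter (fun j : Fin m => x ∈ S j)).card ≤ t) → FewTraces S g →
    ∃ χ : Fin n → ℤ, (∀ x, χ x = 1 ∨ χ x = -1) ∧
      ∀ j, ((|∑ x ∈ S j, χ x| : ℤ) : ℝ) ≤ C * Real.sqrt (g * t) := by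
  obtain ⟨C, hC, H⟩ := Pool.Agent.Results.MP_e8ee11_co.LongSets.result (1 / 10) (by norm_num)
    (by norm_num)
  refine ⟨8 * C + 1 + 3628800, by positivity, fun n m t g S ht hdeg hS => ?_⟩
  by_cases hm : Nonempty (Fin m) ∧ Nonempty (Fin n)
  · obtain ⟨⟨j0⟩, ⟨x0⟩⟩ := hm
    have hg := one_le_g S g hS j0 x0
    have htR : (1 : ℝ) ≤ t := by exact_mod_cast ht
    have hgR : (1 : ℝ) ≤ g := by exact_mod_cast hg
    set q : ℝ := Real.sqrt ((g : ℝ) * t) with hq
    have hgt : (1 : ℝ) ≤ (g : ℝ) * t := by nlinarith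
    have hq1 : 1 ≤ q := Real.one_le_sqrt.2 hgt
    have hqq : q * q = (g : ℝ) * t := Real.mul_self_sqrt (by linarith)
    have hqt : Real.sqrt t ≤ q := Real.sqrt_le_sqrt (by nlinarith)
    set x : ℝ := (((2 * t : ℕ) : ℝ)) ^ ((1 : ℝ) / 10) with hx
    by_cases hcase : q ≤ Real.exp x
    · obtain ⟨T, hT1, hT2, hT3⟩ := reduce S t g hdeg hS
      obtain ⟨z, hz1, hz2, _⟩ := H n (m + m) (2 * t) T (by omega) hT1
      have hB : ∀ k, ((|∑ x ∈ T k, z x| : ℤ) : ℝ) ≤ C * (4 * q) := by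
        intro k
        refine (hz2 k).trans ?_
        refine mul_le_mul_of_nonneg_left ?_ hC.le
        have h1 : ((T k).card : ℝ) ≤ (g : ℝ) * t := by exact_mod_cast hT2 k
        have h2 : Real.sqrt ((2 * t : ℕ) : ℝ) ≤ 2 * q := by
          have h3 : Real.sqrt ((2 * t : ℕ) : ℝ) ≤ Real.sqrt (4 * ((g : ℝ) * t)) := by
            refine Real.sqrt_le_sqrt ?_
            push_cast
            nlinarith
          have h4 : Real.sqrt (4 * ((g : ℝ) * t)) = 2 * q := by
            rw [Real.sqrt_mul (by norm_num), ← hq]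
            congr 1
            rw [show (4 : ℝ) = 2 ^ 2 by norm_num, Real.sqrt_sq (by norm_num)]
          linarith
        have h5 : Real.sqrt ((T k).card : ℝ) ≤ q := Real.sqrt_le_sqrt h1
        have h6 : ((T k).card : ℝ) * Real.exp (-x) ≤ q := by
          have h7 : q * Real.exp (-x) ≤ 1 := by
            rw [Real.exp_neg, ← div_eq_mul_inv, div_le_one (Real.exp_pos _)]
            exact hcase
          calc ((T k).card : ℝ) * Real.exp (-x) ≤ (q * q) * Real.exp (-x) := by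
                rw [hqq]
                exact mul_le_mul_of_nonneg_right h1 (Real.exp_pos _).le
            _ = q * (q * Real.exp (-x)) := by ring
            _ ≤ q * 1 := mul_le_mul_of_nonneg_left h7 (by linarith)
            _ = q := mul_one q
        linarith
      obtain ⟨χ, h1, h2⟩ := hT3 z hz1 _ hB
      refine ⟨χ, h1, fun j => (h2 j).trans ?_⟩
      nlinarith
    · push Not at hcase
      obtain ⟨χ, h1, h2⟩ := H294BF.set_signing t S hdeg
      refine ⟨χ, h1, fun j => ?_⟩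
      have h3 : ((|∑ x ∈ S j, χ x| : ℤ) : ℝ) ≤ t := by
        have := h2 j
        exact_mod_cast this
      have hx0 : 0 ≤ x := Real.rpow_nonneg (Nat.cast_nonneg _) _
      have h4 := Real.pow_div_factorial_le_exp x hx0 10
      have h5 : x ^ 10 = 2 * (t : ℝ) := by
        rw [hx, ← Real.rpow_natCast, ← Real.rpow_mul (Nat.cast_nonneg _)]
        norm_num
      have h6 : ((Nat.factorial 10 : ℕ) : ℝ) = 3628800 := by norm_num [Nat.factorial]
      rw [h5, h6] at h4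
      have h7 : 2 * (t : ℝ) ≤ 3628800 * q := by
        have := h4.trans hcase.le
        rw [div_le_iff₀ (by norm_num)] at this
        linarith
      nlinarith
  · refine ⟨fun _ => 1, fun _ => Or.inl rfl, fun j => ?_⟩
    have hn : IsEmpty (Fin n) := by
      rw [← not_nonempty_iff]
      exact fun h => hm ⟨⟨j⟩, h⟩
    have : S j = ∅ := Finset.eq_empty_of_isEmpty _
    rw [this]
    simp only [Finset.sum_empty, abs_zero, Int.cast_zero]
    positivity

/-- The iterated logarithm changes by at most one if the argument is doubled. -/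
theorem slog_two (r : ℕ) (q : ℝ) (hq : 0 ≤ q) :
    0 ≤ (fun x : ℝ => Real.log (1 + x))^[r + 1] q ∧
    (fun x : ℝ => Real.log (1 + x))^[r + 1] (2 * q) ≤
      (fun x : ℝ => Real.log (1 + x))^[r + 1] q + 1 := by
  have hl2 : Real.log 2 ≤ 1 := by
    have := Real.log_two_lt_d9
    linarith
  have hnn : ∀ (k : ℕ) (y : ℝ), 0 ≤ y → 0 ≤ (fun x : ℝ => Real.log (1 + x))^[k] y := by
    intro k
    induction k with
    | zero => intro y hy; simpa using hy
    | succ k ih =>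
      intro y hy
      rw [Function.iterate_succ_apply']
      exact Real.log_nonneg (by linarith [ih y hy])
  refine ⟨hnn _ _ hq, ?_⟩
  induction r with
  | zero =>
    simp only [zero_add, Function.iterate_one]
    have h1 : 1 + 2 * q ≤ 2 * (1 + q) := by linarith
    have h2 := Real.log_le_log (by linarith) h1
    rw [Real.log_mul (by norm_num) (by linarith)] at h2
    linarith
  | succ r ih =>
    rw [Function.iterate_succ_apply', Function.iterate_succ_apply' _ (r + 1) q]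
    set a := (fun x : ℝ => Real.log (1 + x))^[r + 1] q with ha
    set b := (fun x : ℝ => Real.log (1 + x))^[r + 1] (2 * q) with hb
    have ha0 : 0 ≤ a := hnn _ _ hq
    have hb0 : 0 ≤ b := hnn _ _ (by linarith)
    have h1 : 1 + b ≤ 2 * (1 + a) := by linarith
    have h2 := Real.log_le_log (by linarith) h1
    rw [Real.log_mul (by norm_num) (by linarith)] at h2
    show Real.log (1 + b) ≤ Real.log (1 + a) + 1
    linarith

theorem slog_mono (k : ℕ) (a b : ℝ) (ha : 0 ≤ a) (hab : a ≤ b) :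
    (fun x : ℝ => Real.log (1 + x))^[k] a ≤ (fun x : ℝ => Real.log (1 + x))^[k] b := by
  have hnn : ∀ (k : ℕ) (y : ℝ), 0 ≤ y → 0 ≤ (fun x : ℝ => Real.log (1 + x))^[k] y := by
    intro k
    induction k with
    | zero => intro y hy; simpa using hy
    | succ k ih =>
      intro y hy
      rw [Function.iterate_succ_apply']
      exact Real.log_nonneg (by linarith [ih y hy])
  induction k with
  | zero => simpa using hab
  | succ k ih =>
    rw [Function.iterate_succ_apply', Function.iterate_succ_apply']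
    exact Real.log_le_log (by linarith [hnn k a ha]) (by linarith)

/-- `(1 + log t)^5 ≤ 3125 t`. -/
theorem log_pow5 (t : ℝ) (ht : 1 ≤ t) : (1 + Real.log t) ^ 5 ≤ 3125 * t := by
  have ht0 : 0 < t := by linarith
  set c : ℝ := t ^ (1 / 5 : ℝ) with hc
  have hc0 : 0 < c := Real.rpow_pos_of_pos ht0 _
  have hl : Real.log t = 5 * Real.log c := by
    rw [hc, Real.log_rpow ht0]; ring
  have h1 : 1 + Real.log t ≤ 5 * c := by
    have := Real.log_le_sub_one_of_pos hc0
    rw [hl]; linarith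
  have hlt : 0 ≤ Real.log t := Real.log_nonneg ht
  calc (1 + Real.log t) ^ 5 ≤ (5 * c) ^ 5 := pow_le_pow_left₀ (by linarith) h1 5
    _ = 3125 * c ^ 5 := by ring
    _ = 3125 * t := by
      rw [hc, ← Real.rpow_natCast, ← Real.rpow_mul ht0.le]
      norm_num

/-- `(1 + log t)^(3/2) ≤ 56 √t`. -/
theorem log_pow32 (t : ℝ) (ht : 1 ≤ t) :
    (1 + Real.log t) ^ (3 / 2 : ℝ) ≤ 56 * Real.sqrt t := by
  have hlt : 0 ≤ Real.log t := Real.log_nonneg ht
  have h1 : (1 + Real.log t) ^ (3 / 2 : ℝ) = Real.sqrt ((1 + Real.log t) ^ 3) := by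
    rw [Real.sqrt_eq_rpow, ← Real.rpow_natCast, ← Real.rpow_mul (by linarith)]
    norm_num
  rw [h1, Real.sqrt_le_iff]
  refine ⟨by positivity, ?_⟩
  have h2 : (1 + Real.log t) ^ 3 ≤ (1 + Real.log t) ^ 5 :=
    pow_le_pow_right₀ (by linarith) (by norm_num)
  have h3 := log_pow5 t ht
  rw [mul_pow, Real.sq_sqrt (by linarith)]
  nlinarith

/-- `(1 + log t)^2 √(log t) ≤ 56 √t`. -/
theorem log_pow52 (t : ℝ) (ht : 1 ≤ t) :
    (1 + Real.log t) ^ 2 * Real.sqrt (Real.log t) ≤ 56 * Real.sqrt t := by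
  have hlt : 0 ≤ Real.log t := Real.log_nonneg ht
  have h1 : (1 + Real.log t) ^ 2 * Real.sqrt (Real.log t) =
      Real.sqrt (((1 + Real.log t) ^ 2) ^ 2 * Real.log t) := by
    rw [Real.sqrt_mul (by positivity), Real.sqrt_sq (by positivity)]
  rw [h1, Real.sqrt_le_iff]
  refine ⟨by positivity, ?_⟩
  have h2 : ((1 + Real.log t) ^ 2) ^ 2 * Real.log t ≤ (1 + Real.log t) ^ 5 := by
    have h4 : 0 ≤ ((1 + Real.log t) ^ 2) ^ 2 := by positivity
    calc ((1 + Real.log t) ^ 2) ^ 2 * Real.log t ≤ ((1 + Real.log t) ^ 2) ^ 2 *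
          (1 + Real.log t) := mul_le_mul_of_nonneg_left (by linarith) h4
      _ = (1 + Real.log t) ^ 5 := by ring
  have h3 := log_pow5 t ht
  rw [mul_pow, Real.sq_sqrt (by linarith)]
  nlinarith

theorem sqrt_add_le' {a b : ℝ} (ha : 0 ≤ a) (hb : 0 ≤ b) :
    Real.sqrt (a + b) ≤ Real.sqrt a + Real.sqrt b := by
  rw [Real.sqrt_le_iff]
  refine ⟨by positivity, ?_⟩
  nlinarith [Real.sq_sqrt ha, Real.sq_sqrt hb, mul_nonneg (Real.sqrt_nonneg a) (Real.sqrt_nonneg b)]

/-- The quantity in the second bound. -/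
theorem num2 (r : ℕ) (t g Z : ℝ) (ht : 1 ≤ t) (hg : 1 ≤ g) (hZ : 0 ≤ Z) (C0 : ℝ) (hC0 : 0 ≤ C0)
    (Z' : ℝ) (hZ' : Z' ≤ Z + 1) :
    2 * (C0 * r * (Real.sqrt (2 * t) + (1 + Real.log (2 * t)) ^ 2 * Real.sqrt (Real.log (g * t)))
      + C0 * (Real.sqrt (2 * t) + (1 + Real.log (2 * t)) ^ (3 / 2 : ℝ) * Real.sqrt Z')) + 1 ≤
    (500 * C0 + 1) * ((r + 1) * Real.sqrt t + r * (1 + Real.log t) ^ 2 * Real.sqrt (Real.log g) +
      (1 + Real.log t) ^ (3 / 2 : ℝ) * Real.sqrt Z) := by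
  have ht0 : 0 < t := by linarith
  have hlt : 0 ≤ Real.log t := Real.log_nonneg ht
  have hlg : 0 ≤ Real.log g := Real.log_nonneg hg
  have hr : (0 : ℝ) ≤ r := Nat.cast_nonneg r
  set q : ℝ := Real.sqrt t with hq
  have hq1 : 1 ≤ q := Real.one_le_sqrt.2 ht
  set ℓ : ℝ := 1 + Real.log t with hℓ
  have hℓ1 : 1 ≤ ℓ := by linarith
  set G : ℝ := Real.sqrt (Real.log g) with hG
  have hG0 : 0 ≤ G := Real.sqrt_nonneg _
  set W : ℝ := Real.sqrt Z with hW
  have hW0 : 0 ≤ W := Real.sqrt_nonneg _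
  set p : ℝ := ℓ ^ (3 / 2 : ℝ) with hp
  have hp0 : 0 ≤ p := Real.rpow_nonneg (by linarith) _
  have h1 : Real.sqrt (2 * t) ≤ 2 * q := by
    rw [Real.sqrt_le_iff]
    refine ⟨by positivity, ?_⟩
    rw [mul_pow, hq, Real.sq_sqrt (by linarith)]
    linarith
  have h2 : 1 + Real.log (2 * t) ≤ 2 * ℓ := by
    rw [Real.log_mul (by norm_num) (by linarith)]
    have := Real.log_two_lt_d9
    linarith
  have h20 : 0 ≤ 1 + Real.log (2 * t) := by
    have := Real.log_nonneg (show 1 ≤ 2 * t by linarith)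
    linarith
  have h3 : (1 + Real.log (2 * t)) ^ 2 ≤ 4 * ℓ ^ 2 := by
    calc (1 + Real.log (2 * t)) ^ 2 ≤ (2 * ℓ) ^ 2 := pow_le_pow_left₀ h20 h2 2
      _ = 4 * ℓ ^ 2 := by ring
  have h4 : Real.sqrt (Real.log (g * t)) ≤ G + Real.sqrt (Real.log t) := by
    rw [Real.log_mul (by linarith) (by linarith), hG]
    exact sqrt_add_le' hlg hlt
  have h5 := log_pow52 t ht
  rw [← hℓ, ← hq] at h5
  have h6 := log_pow32 t ht
  rw [← hℓ, ← hq, ← hp] at h6
  have h7 : (1 + Real.log (2 * t)) ^ (3 / 2 : ℝ) ≤ 3 * p := by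
    calc (1 + Real.log (2 * t)) ^ (3 / 2 : ℝ) ≤ (2 * ℓ) ^ (3 / 2 : ℝ) :=
          Real.rpow_le_rpow h20 h2 (by norm_num)
      _ = 2 ^ (3 / 2 : ℝ) * p := by rw [Real.mul_rpow (by norm_num) (by linarith), hp]
      _ ≤ 3 * p := by
        refine mul_le_mul_of_nonneg_right ?_ hp0
        have e : (2 : ℝ) ^ (3 / 2 : ℝ) = Real.sqrt (2 ^ 3) := by
          rw [Real.sqrt_eq_rpow, ← Real.rpow_natCast, ← Real.rpow_mul (by norm_num)]
          norm_num
        rw [e, Real.sqrt_le_iff]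
        norm_num
  have h8 : Real.sqrt Z' ≤ W + 1 := by
    have e1 : Real.sqrt Z' ≤ Real.sqrt (Z + 1) := Real.sqrt_le_sqrt hZ'
    have e2 : Real.sqrt (Z + 1) ≤ Real.sqrt Z + Real.sqrt 1 :=
      sqrt_add_le' hZ zero_le_one
    rw [Real.sqrt_one] at e2
    linarith
  have h9 : (1 + Real.log (2 * t)) ^ 2 * Real.sqrt (Real.log (g * t)) ≤
      4 * ℓ ^ 2 * G + 224 * q := by
    calc (1 + Real.log (2 * t)) ^ 2 * Real.sqrt (Real.log (g * t))
        ≤ (4 * ℓ ^ 2) * (G + Real.sqrt (Real.log t)) :=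
          mul_le_mul h3 h4 (Real.sqrt_nonneg _) (by positivity)
      _ = 4 * ℓ ^ 2 * G + 4 * (ℓ ^ 2 * Real.sqrt (Real.log t)) := by ring
      _ ≤ _ := by linarith
  have h10 : (1 + Real.log (2 * t)) ^ (3 / 2 : ℝ) * Real.sqrt Z' ≤ 3 * (p * W) + 168 * q := by
    calc (1 + Real.log (2 * t)) ^ (3 / 2 : ℝ) * Real.sqrt Z' ≤ (3 * p) * (W + 1) :=
          mul_le_mul h7 h8 (Real.sqrt_nonneg _) (by positivity)
      _ = 3 * (p * W) + 3 * p := by ring
      _ ≤ _ := by linarith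
  have h11 : C0 * r * (Real.sqrt (2 * t) + (1 + Real.log (2 * t)) ^ 2 *
      Real.sqrt (Real.log (g * t))) ≤ C0 * r * (2 * q + (4 * ℓ ^ 2 * G + 224 * q)) :=
    mul_le_mul_of_nonneg_left (by linarith) (by positivity)
  have h12 : C0 * (Real.sqrt (2 * t) + (1 + Real.log (2 * t)) ^ (3 / 2 : ℝ) * Real.sqrt Z') ≤
      C0 * (2 * q + (3 * (p * W) + 168 * q)) :=
    mul_le_mul_of_nonneg_left (by linarith) hC0
  have e1 : 0 ≤ C0 * r * q := by positivity
  have e2 : 0 ≤ C0 * q := by positivity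
  have e3 : 0 ≤ C0 * (r * ℓ ^ 2 * G) := by positivity
  have e4 : 0 ≤ C0 * (p * W) := by positivity
  have e5 : 0 ≤ r * ℓ ^ 2 * G := by positivity
  have e6 : 0 ≤ p * W := by positivity
  have e7 : 0 ≤ r * q := by positivity
  nlinarith

theorem main2 : ∃ C : ℝ, 0 < C ∧ ∀ (n m t g : ℕ) (S : Fin m → Finset (Fin n)), 1 ≤ t →
    (∀ x : Fin n, (univ.filter (fun j : Fin m => x ∈ S j)).card ≤ t) → FewTraces S g →
    ∀ r : ℕ, ∃ χ : Fin n → ℤ, (∀ x, χ x = 1 ∨ χ x = -1) ∧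
      ∀ j, ((|∑ x ∈ S j, χ x| : ℤ) : ℝ) ≤ C * ((r + 1) * Real.sqrt t +
        r * (1 + Real.log t) ^ 2 * Real.sqrt (Real.log g) +
        (1 + Real.log t) ^ (3 / 2 : ℝ) *
          Real.sqrt ((fun x : ℝ => Real.log (1 + x))^[r + 1] (min m n : ℕ))) := by
  obtain ⟨C, H⟩ := Pool.Agent.Results.MP_e8ee11_co.BeckFialaIterFree.result
  refine ⟨500 * |C| + 1, by positivity, fun n m t g S ht hdeg hS r => ?_⟩
  have htR : (1 : ℝ) ≤ t := by exact_mod_cast ht
  have hZ := slog_two r ((min m n : ℕ) : ℝ) (Nat.cast_nonneg _)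
  by_cases hm : Nonempty (Fin m) ∧ Nonempty (Fin n)
  · obtain ⟨⟨j0⟩, ⟨x0⟩⟩ := hm
    have hg := one_le_g S g hS j0 x0
    have hgR : (1 : ℝ) ≤ g := by exact_mod_cast hg
    obtain ⟨T, hT1, hT2, hT3⟩ := reduce S t g hdeg hS
    obtain ⟨⟨z, hz1, hz2⟩, _⟩ := H (m + m) n (2 * t) (g * t) (by omega)
      (Nat.mul_pos hg ht) T hT1 hT2 r (fun _ => 0) (fun _ => by norm_num)
    obtain ⟨χ, h1, h2⟩ := hT3 z hz1 _ (fun k => by
      have h3 := hz2 k
      simp only [sub_zero] at h3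
      push_cast
      exact h3)
    refine ⟨χ, h1, fun j => (h2 j).trans ?_⟩
    have hmin : ((min (m + m) n : ℕ) : ℝ) ≤ 2 * ((min m n : ℕ) : ℝ) := by
      have : min (m + m) n ≤ 2 * min m n := by omega
      exact_mod_cast this
    have hZ' : (fun x : ℝ => Real.log (1 + x))^[r + 1] ((min (m + m) n : ℕ) : ℝ) ≤
        (fun x : ℝ => Real.log (1 + x))^[r + 1] ((min m n : ℕ) : ℝ) + 1 :=
      (slog_mono _ _ _ (Nat.cast_nonneg _) hmin).trans hZ.2
    have hC0 : 0 ≤ |C| := abs_nonneg C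
    refine le_trans ?_ (num2 r t g _ htR hgR hZ.1 |C| hC0 _ hZ')
    have hlog : 0 ≤ Real.log (2 * (t : ℝ)) := Real.log_nonneg (by linarith)
    have hA : 0 ≤ (r : ℝ) * (Real.sqrt (2 * (t : ℝ)) + (1 + Real.log (2 * (t : ℝ))) ^ 2 *
        Real.sqrt (Real.log ((g : ℝ) * t))) := by positivity
    have hB : 0 ≤ Real.sqrt (2 * (t : ℝ)) + (1 + Real.log (2 * (t : ℝ))) ^ (3 / 2 : ℝ) *
        Real.sqrt ((fun x : ℝ => Real.log (1 + x))^[r + 1] ((min (m + m) n : ℕ) : ℝ)) := by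
      have : 0 ≤ (1 + Real.log (2 * (t : ℝ))) ^ (3 / 2 : ℝ) :=
        Real.rpow_nonneg (by linarith) _
      positivity
    have hCC := le_abs_self C
    have e1 := mul_le_mul_of_nonneg_right hCC hA
    have e2 := mul_le_mul_of_nonneg_right hCC hB
    push_cast at e1 e2 ⊢
    linarith
  · refine ⟨fun _ => 1, fun _ => Or.inl rfl, fun j => ?_⟩
    have hn : IsEmpty (Fin n) := by
      rw [← not_nonempty_iff]
      exact fun h => hm ⟨⟨j⟩, h⟩
    have : S j = ∅ := Finset.eq_empty_of_isEmpty _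
    rw [this]
    simp only [Finset.sum_empty, abs_zero, Int.cast_zero]
    have hlt : 0 ≤ Real.log (t : ℝ) := Real.log_nonneg htR
    have : 0 ≤ (1 + Real.log (t : ℝ)) ^ (3 / 2 : ℝ) := Real.rpow_nonneg (by linarith) _
    positivity

end Pool.Agent.U671.FT
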