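import Mathlib
import Pool.Agent.U671.FT.Match

/-!
# Few traces: bounded twin-width, and Boolean combinations
-/

set_option autoImplicit false

namespace Pool.Agent.U671.FT

open Finset

variable {m n : ℕ}

/-- The block of the points with label `a` and the sets with label `b` of the incidence matrix is
not constant: one of these points is in one of these sets, and one of these points is not in one of
these sets. -/
def Mixed (S : Fin m → Finset (Fin n)) (P : Fin n → ℕ) (Q : Fin m → ℕ) (a b : ℕ) : Prop :=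
  (∃ x j, P x = a ∧ Q j = b ∧ x ∈ S j) ∧ ∃ x j, P x = a ∧ Q j = b ∧ x ∉ S j

/-- The incidence matrix has twin-width at most `d`: there are partitions of the points (the
classes of `P k`) and of the sets (the classes of `Q k`), `0 ≤ k ≤ L`, which are discrete for
`k = 0` and trivial for `k = L`, only one of which changes from `k` to `k + 1`, such that for every
`k` every class of one side forms a block which is not constant with at most `d` classes of the
other side. -/
def TwinWidthLE (S : Fin m → Finset (Fin n)) (d : ℕ) : Prop :=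
  ∃ (L : ℕ) (P : ℕ → Fin n → ℕ) (Q : ℕ → Fin m → ℕ),
    (Function.Injective (P 0) ∧ Function.Injective (Q 0)) ∧
    ((∀ x y, P L x = P L y) ∧ ∀ i j, Q L i = Q L j) ∧
    (∀ k, k < L → P (k + 1) = P k ∨ Q (k + 1) = Q k) ∧
    ∀ k, k ≤ L → (∀ a, {b | Mixed S (P k) (Q k) a b}.ncard ≤ d) ∧
      ∀ b, {a | Mixed S (P k) (Q k) a b}.ncard ≤ d

theorem card_image_le_of_factor {α β γ : Type*} [DecidableEq β] [DecidableEq γ] (s : Finset α)
    (f : α → β) (g : α → γ) (h : ∀ x ∈ s, ∀ y ∈ s, g x = g y → f x = f y) :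
    (s.image f).card ≤ (s.image g).card := by
  refine Finset.card_le_card_of_forall_subsingleton (fun b c => ∃ x ∈ s, f x = b ∧ g x = c) ?_ ?_
  · intro b hb
    obtain ⟨x, hx, rfl⟩ := Finset.mem_image.1 hb
    exact ⟨g x, Finset.mem_image_of_mem g hx, x, hx, rfl, rfl⟩
  · intro c _ b hb b' hb'
    obtain ⟨_, x, hx, rfl, h1⟩ := hb
    obtain ⟨_, y, hy, rfl, h2⟩ := hb'
    exact h x hx y hy (h1.trans h2.symm)

theorem trace_eq_iff (S : Fin m → Finset (Fin n)) (J : Finset (Fin m)) (x y : Fin n) :
    trace S J x = trace S J y ↔ ∀ j ∈ J, (x ∈ S j ↔ y ∈ S j) := by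
  constructor
  · intro h j hj
    exact mem_iff_of_trace_eq h hj
  · intro h
    ext j
    simp only [trace, Finset.mem_filter]
    constructor
    · rintro ⟨h1, h2⟩; exact ⟨h1, (h j h1).1 h2⟩
    · rintro ⟨h1, h2⟩; exact ⟨h1, (h j h1).2 h2⟩

/-- A class of points has at most `2 ^ d` traces on sets in different classes. -/
theorem class_traces (S : Fin m → Finset (Fin n)) (P : Fin n → ℕ) (Q : Fin m → ℕ) (d a : ℕ)
    (h : {b | Mixed S P Q a b}.ncard ≤ d) (J : Finset (Fin m)) (hJ : Set.InjOn Q J) :
    ((univ.filter (fun x => P x = a)).image (trace S J)).card ≤ 2 ^ d := by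
  classical
  set K : Finset (Fin m) := J.filter (fun j => Mixed S P Q a (Q j)) with hK
  have hKc : K.card ≤ d := by
    have hfin : {b | Mixed S P Q a b}.Finite :=
      (Set.finite_range Q).subset (by
        rintro b ⟨⟨x, j, _, h2, _⟩, _⟩
        exact ⟨j, h2⟩)
    have h1 : (K.image Q).card = K.card :=
      Finset.card_image_of_injOn (hJ.mono (by
        intro j hj
        exact (Finset.mem_filter.1 hj).1))
    have h2 : (↑(K.image Q) : Set ℕ) ⊆ {b | Mixed S P Q a b} := by
      intro b hb
      rw [Finset.coe_image] at hb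
      obtain ⟨j, hj, rfl⟩ := hb
      exact (Finset.mem_filter.1 hj).2
    have h3 := Set.ncard_le_ncard h2 hfin
    rw [Set.ncard_coe_finset, h1] at h3
    exact h3.trans h
  have h1 : ((univ.filter (fun x => P x = a)).image (trace S J)).card ≤
      ((univ.filter (fun x => P x = a)).image (trace S K)).card := by
    refine card_image_le_of_factor _ _ _ ?_
    intro x hx y hy hxy
    rw [Finset.mem_filter] at hx hy
    rw [trace_eq_iff] at hxy ⊢
    intro j hj
    by_cases hm : Mixed S P Q a (Q j)
    · exact hxy j (Finset.mem_filter.2 ⟨hj, hm⟩)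
    · constructor
      · intro h1
        by_contra h2
        exact hm ⟨⟨x, j, hx.2, rfl, h1⟩, ⟨y, j, hy.2, rfl, h2⟩⟩
      · intro h1
        by_contra h2
        exact hm ⟨⟨y, j, hy.2, rfl, h1⟩, ⟨x, j, hx.2, rfl, h2⟩⟩
  refine h1.trans ((Finset.card_le_card ?_).trans ((Finset.card_powerset K).le.trans
    (Nat.pow_le_pow_right (by norm_num) hKc)))
  intro τ hτ
  obtain ⟨x, _, rfl⟩ := Finset.mem_image.1 hτ
  exact Finset.mem_powerset.2 (Finset.filter_subset _ _)

theorem tw_traces (S : Fin m → Finset (Fin n)) (d : ℕ) (h : TwinWidthLE S d) :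
    ∀ (N : ℕ) (J : Finset (Fin m)), J.card = N + 1 → ∀ Y : Finset (Fin n),
      (Y.image (trace S J)).card ≤ d * 2 ^ d * N + 2 := by
  classical
  obtain ⟨L, P, Q, ⟨_, hQ0⟩, ⟨_, hQL⟩, hstep, hmix⟩ := h
  intro N
  induction N with
  | zero =>
    intro J hJ Y
    have h1 : Y.image (trace S J) ⊆ J.powerset := by
      intro τ hτ
      obtain ⟨x, _, rfl⟩ := Finset.mem_image.1 hτ
      exact Finset.mem_powerset.2 (Finset.filter_subset _ _)
    have h2 := Finset.card_le_card h1
    rw [Finset.card_powerset, hJ] at h2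
    simpa using h2
  | succ N ih =>
    intro J hJ Y
    have hex : ∃ k, ¬ Set.InjOn (Q k) (J : Set (Fin m)) := by
      refine ⟨L, fun hinj => ?_⟩
      obtain ⟨i, hi, j, hj, hij⟩ := Finset.one_lt_card.1 (by omega : 1 < J.card)
      exact hij (hinj hi hj (hQL i j))
    set k := Nat.find hex with hk
    have hk1 : ¬ Set.InjOn (Q k) (J : Set (Fin m)) := Nat.find_spec hex
    have hkL : k ≤ L := by
      refine Nat.find_le (n := L) ?_ |>.trans le_rfl
      intro hinj
      obtain ⟨i, hi, j, hj, hij⟩ := Finset.one_lt_card.1 (by omega : 1 < J.card)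
      exact hij (hinj hi hj (hQL i j))
    have hk0 : k ≠ 0 := by
      intro h0
      rw [h0] at hk1
      exact hk1 (hQ0.injOn)
    obtain ⟨l, hl⟩ := Nat.exists_eq_succ_of_ne_zero hk0
    have hl1 : Set.InjOn (Q l) (J : Set (Fin m)) := by
      by_contra hcon
      have := Nat.find_min' hex hcon
      omega
    rw [hl] at hk1
    have hP : P (l + 1) = P l := by
      rcases hstep l (by omega) with h | h
      · exact h
      · exfalso
        rw [Nat.succ_eq_add_one, h] at hk1
        exact hk1 hl1
    rw [Set.InjOn] at hk1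
    push Not at hk1
    obtain ⟨j1, hj1, j2, hj2, hlab, hne⟩ := hk1
    set b := Q (l + 1) j1 with hb
    have hEfin : {a | Mixed S (P (l + 1)) (Q (l + 1)) a b}.Finite :=
      (Set.finite_range (P (l + 1))).subset (by
        rintro a ⟨⟨x, j, h2, _, _⟩, _⟩
        exact ⟨x, h2⟩)
    set E : Finset ℕ := hEfin.toFinset with hE
    have hEc : E.card ≤ d := by
      have := (hmix (l + 1) (by omega)).2 b
      rwa [Set.ncard_eq_toFinset_card _ hEfin] at this
    set Y1 : Finset (Fin n) := Y.filter (fun x => P (l + 1) x ∈ E) with hY1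
    set Y2 : Finset (Fin n) := Y.filter (fun x => ¬ P (l + 1) x ∈ E) with hY2
    have hYu : Y.image (trace S J) ⊆ Y1.image (trace S J) ∪ Y2.image (trace S J) := by
      rw [← Finset.image_union, hY1, hY2, Finset.filter_union_filter_not_eq]
    have hc1 : (Y1.image (trace S J)).card ≤ d * 2 ^ d := by
      have hsub : Y1.image (trace S J) ⊆
          E.biUnion (fun a => (univ.filter (fun x => P l x = a)).image (trace S J)) := by
        intro τ hτ
        obtain ⟨x, hx, rfl⟩ := Finset.mem_image.1 hτ
        rw [hY1, Finset.mem_filter] at hx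
        refine Finset.mem_biUnion.2 ⟨P (l + 1) x, hx.2, Finset.mem_image_of_mem _ ?_⟩
        rw [Finset.mem_filter]
        exact ⟨Finset.mem_univ _, by rw [hP]⟩
      refine (Finset.card_le_card hsub).trans
        ((Finset.card_biUnion_le_card_mul _ _ (2 ^ d) fun a _ => ?_).trans
          (Nat.mul_le_mul_right _ hEc))
      exact class_traces S (P l) (Q l) d a ((hmix l (by omega)).1 a) J hl1
    have hc2 : (Y2.image (trace S J)).card ≤ d * 2 ^ d * N + 2 := by
      have h1 : (Y2.image (trace S J)).card ≤ (Y2.image (trace S (J.erase j2))).card := by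
        refine card_image_le_of_factor _ _ _ ?_
        intro x hx y hy hxy
        have hnm : ∀ x ∈ Y2, (x ∈ S j1 ↔ x ∈ S j2) := by
          intro x hx
          rw [hY2, Finset.mem_filter, hE, Set.Finite.mem_toFinset] at hx
          constructor
          · intro h1
            by_contra h2
            exact hx.2 ⟨⟨x, j1, rfl, rfl, h1⟩, ⟨x, j2, rfl, hlab.symm, h2⟩⟩
          · intro h1
            by_contra h2
            exact hx.2 ⟨⟨x, j2, rfl, hlab.symm, h1⟩, ⟨x, j1, rfl, rfl, h2⟩⟩
        rw [trace_eq_iff] at hxy ⊢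
        intro j hj
        by_cases hj2' : j = j2
        · rw [hj2', ← hnm x hx, ← hnm y hy]
          exact hxy j1 (Finset.mem_erase.2 ⟨hne, hj1⟩)
        · exact hxy j (Finset.mem_erase.2 ⟨hj2', hj⟩)
      refine h1.trans (ih (J.erase j2) ?_ Y2)
      rw [Finset.card_erase_of_mem hj2, hJ]
      rfl
    calc (Y.image (trace S J)).card ≤ (Y1.image (trace S J) ∪ Y2.image (trace S J)).card :=
          Finset.card_le_card hYu
      _ ≤ (Y1.image (trace S J)).card + (Y2.image (trace S J)).card := Finset.card_union_le _ _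
      _ ≤ d * 2 ^ d + (d * 2 ^ d * N + 2) := Nat.add_le_add hc1 hc2
      _ = d * 2 ^ d * (N + 1) + 2 := by ring

theorem few_of_twinWidth (S : Fin m → Finset (Fin n)) (d : ℕ) (h : TwinWidthLE S d) :
    FewTraces S (d * 2 ^ d + 2) := by
  intro J hJ
  obtain ⟨N, hN⟩ := Nat.exists_eq_succ_of_ne_zero (Finset.card_pos.2 hJ).ne'
  refine (tw_traces S d h N J hN univ).trans ?_
  rw [hN, Nat.succ_eq_add_one]
  nlinarith [Nat.zero_le N, Nat.zero_le (d * 2 ^ d)]

/-- Boolean combinations of at most `k` members of a family with few traces. -/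
theorem few_of_combination {M : ℕ} (R : Fin M → Finset (Fin n)) (S : Fin m → Finset (Fin n))
    (g k : ℕ) (hg : 1 ≤ g) (hk : 1 ≤ k) (hR : FewTraces R g)
    (K : Fin m → Finset (Fin M)) (hK : ∀ j, (K j).card ≤ k)
    (hSR : ∀ j x y, (∀ i ∈ K j, (x ∈ R i ↔ y ∈ R i)) → (x ∈ S j ↔ y ∈ S j)) :
    FewTraces S (g * k) := by
  classical
  intro J hJ
  set I : Finset (Fin M) := J.biUnion K with hI
  have h1 : (univ.image (trace S J)).card ≤ (univ.image (trace R I)).card := by
    refine card_image_le_of_factor _ _ _ ?_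
    intro x _ y _ hxy
    rw [trace_eq_iff] at hxy ⊢
    intro j hj
    exact hSR j x y fun i hi => hxy i (Finset.mem_biUnion.2 ⟨j, hj, hi⟩)
  have hIc : I.card ≤ k * J.card := by
    have := Finset.card_biUnion_le_card_mul J K k (fun j _ => hK j)
    rwa [mul_comm] at this
  by_cases hIn : I.Nonempty
  · calc (univ.image (trace S J)).card ≤ g * I.card := h1.trans (hR I hIn)
      _ ≤ g * (k * J.card) := Nat.mul_le_mul_left _ hIc
      _ = g * k * J.card := by ring
  · rw [Finset.not_nonempty_iff_eq_empty] at hIn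
    have h2 : (univ.image (trace R I)).card ≤ 1 := by
      rw [Finset.card_le_one]
      intro a ha b hb
      obtain ⟨x, _, rfl⟩ := Finset.mem_image.1 ha
      obtain ⟨y, _, rfl⟩ := Finset.mem_image.1 hb
      rw [hIn]
      simp [trace]
    have h3 : 1 ≤ J.card := Finset.card_pos.2 hJ
    have h4 : 1 ≤ g * k * J.card := Nat.mul_pos (Nat.mul_pos hg hk) h3
    omega

end Pool.Agent.U671.FT
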